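import Pool.Agent.helper60.XP.SpecT

/-!
# Project xp: RTU, the uniformising coordinate
-/

set_option autoImplicit false

open Complex Metric Set Filter Topology MeasureTheory
open V3S (UF)
open XP

noncomputable section

namespace XPT

/-- Averaging: `P + a x P' = h`. -/
theorem RTU_avg (h : ℂ → ℂ) (R : ℝ) (hh : DifferentiableOn ℂ h (ball 0 R)) (a : ℝ)
    (ha : 0 < a) : ∃ P P' : ℂ → ℂ, ∀ x ∈ ball (0 : ℂ) R, HasDerivAt P (P' x) x ∧
      P x + a * x * P' x = h x := by
  set φ : ℝ → ℂ := fun t => ((t ^ a : ℝ) : ℂ) with hφ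
  have hφc : Continuous φ :=
    Complex.continuous_ofReal.comp (continuous_id.rpow_const fun _ => Or.inr ha.le)
  have hφn : ∀ t ∈ Icc (0 : ℝ) 1, ‖φ t‖ ≤ 1 := by
    intro t ht
    rw [hφ]
    simp only [Complex.norm_real, Real.norm_eq_abs]
    rw [abs_of_nonneg (Real.rpow_nonneg ht.1 a)]
    exact Real.rpow_le_one ht.1 ht.2 ha.le
  have hmem : ∀ (r : ℝ) (t : ℝ), t ∈ Icc (0 : ℝ) 1 → ∀ y : ℂ, ‖y‖ ≤ r → ‖φ t * y‖ ≤ r := by
    intro r t ht y hy
    rw [norm_mul]
    calc ‖φ t‖ * ‖y‖ ≤ 1 * ‖y‖ := mul_le_mul_of_nonneg_right (hφn t ht) (norm_nonneg _)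
      _ ≤ r := by rw [one_mul]; exact hy
  have hd : DifferentiableOn ℂ (deriv h) (ball 0 R) := hh.deriv isOpen_ball
  have hcont : ∀ (g : ℂ → ℂ), ContinuousOn g (ball 0 R) → ∀ y ∈ ball (0 : ℂ) R,
      ContinuousOn (fun t : ℝ => g (φ t * y)) (Icc 0 1) := by
    intro g hg y hy
    refine hg.comp (hφc.mul continuous_const).continuousOn fun t ht => ?_
    rw [mem_ball_zero_iff] at hy ⊢
    exact lt_of_le_of_lt (hmem _ t ht y le_rfl) hy
  have hIcc : uIcc (0 : ℝ) 1 = Icc 0 1 := uIcc_of_le zero_le_one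
  have hIoc : uIoc (0 : ℝ) 1 ⊆ Icc 0 1 := by
    rw [uIoc_of_le zero_le_one]
    exact Ioc_subset_Icc_self
  refine ⟨fun x => ∫ t in (0 : ℝ)..1, h (φ t * x),
    fun x => ∫ t in (0 : ℝ)..1, φ t * deriv h (φ t * x), fun x hx => ?_⟩
  have hxR : ‖x‖ < R := mem_ball_zero_iff.1 hx
  obtain ⟨r, hxr, hrR⟩ := exists_between hxR
  have hsub : closedBall (0 : ℂ) r ⊆ ball 0 R := closedBall_subset_ball hrR
  obtain ⟨M, hM⟩ := (isCompact_closedBall (0 : ℂ) r).exists_bound_of_continuousOn
    (hd.continuousOn.mono hsub)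
  have hc1 : ContinuousOn (fun t : ℝ => h (φ t * x)) (Icc 0 1) := hcont h hh.continuousOn x hx
  have hc2 : ContinuousOn (fun t : ℝ => φ t * deriv h (φ t * x)) (Icc 0 1) :=
    hφc.continuousOn.mul (hcont (deriv h) hd.continuousOn x hx)
  have key := intervalIntegral.hasDerivAt_integral_of_dominated_loc_of_deriv_le
    (μ := volume) (a := 0) (b := 1) (F := fun (y : ℂ) (t : ℝ) => h (φ t * y))
    (F' := fun (y : ℂ) (t : ℝ) => φ t * deriv h (φ t * y)) (x₀ := x) (s := ball 0 r)
    (bound := fun _ => M) (isOpen_ball.mem_nhds (mem_ball_zero_iff.2 hxr))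
    (by
      filter_upwards [isOpen_ball.mem_nhds hx] with y hy
      exact ((hcont h hh.continuousOn y hy).mono hIoc).aestronglyMeasurable measurableSet_uIoc)
    (by
      refine ContinuousOn.intervalIntegrable ?_
      rw [hIcc]
      exact hc1)
    ((hc2.mono hIoc).aestronglyMeasurable measurableSet_uIoc)
    (by
      refine Eventually.of_forall fun t ht y hy => ?_
      have ht' := hIoc ht
      rw [norm_mul]
      have h1 : ‖deriv h (φ t * y)‖ ≤ M := hM _ (mem_closedBall_zero_iff.2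
        (hmem r t ht' y (mem_ball_zero_iff.1 hy).le))
      calc ‖φ t‖ * ‖deriv h (φ t * y)‖ ≤ 1 * M :=
            mul_le_mul (hφn t ht') h1 (norm_nonneg _) zero_le_one
        _ = M := one_mul _)
    intervalIntegrable_const
    (by
      refine Eventually.of_forall fun t ht y hy => ?_
      have ht' := hIoc ht
      have h0 : φ t * y ∈ ball (0 : ℂ) R := hsub (mem_closedBall_zero_iff.2
        (hmem r t ht' y (mem_ball_zero_iff.1 hy).le))
      have h1 : HasDerivAt h (deriv h (φ t * y)) (φ t * y) :=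
        (hh.differentiableAt (isOpen_ball.mem_nhds h0)).hasDerivAt
      have h2 : HasDerivAt (fun y : ℂ => φ t * y) (φ t) y := by
        simpa using (hasDerivAt_id y).const_mul (φ t)
      have h3 := h1.comp y h2
      rw [mul_comm] at h3
      exact h3)
  refine ⟨key.2, ?_⟩
  -- the differential equation
  have hftc : ∫ t in (0 : ℝ)..1, (h (φ t * x) + a * x * (φ t * deriv h (φ t * x))) =
      ((1 : ℝ) : ℂ) * h (φ 1 * x) - ((0 : ℝ) : ℂ) * h (φ 0 * x) := by
    refine intervalIntegral.integral_eq_sub_of_hasDerivAt_of_le (f := fun t : ℝ =>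
      (t : ℂ) * h (φ t * x)) zero_le_one
      (Complex.continuous_ofReal.continuousOn.mul hc1) ?_ ?_
    · intro t ht
      have ht' : t ∈ Icc (0 : ℝ) 1 := Ioo_subset_Icc_self ht
      have h0 : φ t * x ∈ ball (0 : ℂ) R := hsub (mem_closedBall_zero_iff.2
        (hmem r t ht' x hxr.le))
      have h1 : HasDerivAt h (deriv h (φ t * x)) (φ t * x) :=
        (hh.differentiableAt (isOpen_ball.mem_nhds h0)).hasDerivAt
      have h2 : HasDerivAt φ (((a * t ^ (a - 1) : ℝ)) : ℂ) t :=
        (Real.hasDerivAt_rpow_const (Or.inl ht.1.ne')).ofReal_comp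
      have h3 : HasDerivAt (fun t : ℝ => φ t * x) (((a * t ^ (a - 1) : ℝ) : ℂ) * x) t :=
        h2.mul_const x
      have h4 : HasDerivAt (fun t : ℝ => h (φ t * x))
          (deriv h (φ t * x) * ((((a * t ^ (a - 1) : ℝ)) : ℂ) * x)) t := h1.comp t h3
      have h5 : HasDerivAt (fun t : ℝ => (t : ℂ)) 1 t := by
        simpa using (hasDerivAt_id t).ofReal_comp
      have h6 : HasDerivAt (fun t : ℝ => (t : ℂ) * h (φ t * x))
          (1 * h (φ t * x) + t * (deriv h (φ t * x) * ((((a * t ^ (a - 1) : ℝ)) : ℂ) * x))) t :=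
        h5.mul h4
      have h7 : (t : ℂ) * (((a * t ^ (a - 1) : ℝ)) : ℂ) = a * φ t := by
        have : t * (a * t ^ (a - 1)) = a * t ^ a := by
          rw [Real.rpow_sub_one ht.1.ne']
          have := ht.1.ne'
          field_simp
        rw [hφ]
        simp only
        rw [← Complex.ofReal_mul, this]
        push_cast
        ring
      refine h6.congr_deriv ?_
      calc 1 * h (φ t * x) + t * (deriv h (φ t * x) * ((((a * t ^ (a - 1) : ℝ)) : ℂ) * x))
          = h (φ t * x) + ((t : ℂ) * (((a * t ^ (a - 1) : ℝ)) : ℂ)) *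
            (x * deriv h (φ t * x)) := by ring
        _ = _ := by rw [h7]; ring
    · refine ContinuousOn.intervalIntegrable ?_
      rw [hIcc]
      exact hc1.add (continuousOn_const.mul hc2)
  have hφ1 : φ 1 = 1 := by rw [hφ]; simp
  rw [intervalIntegral.integral_add (by
      refine ContinuousOn.intervalIntegrable ?_
      rw [hIcc]
      exact hc1) (by
      refine ContinuousOn.intervalIntegrable ?_
      rw [hIcc]
      exact continuousOn_const.mul hc2), intervalIntegral.integral_const_mul] at hftc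
  rw [hftc, hφ1]
  simp

/-- RTU: the uniformising coordinate. -/
theorem RTU : RTU_stmt := by
  intro B E d hd hE hE0 hB
  -- the ball
  obtain ⟨R₀, hR₀, hEd⟩ : ∃ R₀ > (0 : ℝ), DifferentiableOn ℂ E (ball 0 R₀) := by
    obtain ⟨s, hs, hs2⟩ := hE.eventually_analyticAt.exists_mem
    obtain ⟨ε, hε, hεs⟩ := Metric.mem_nhds_iff.1 hs
    exact ⟨ε, hε, fun x hx => (hs2 x (hεs hx)).differentiableAt.differentiableWithinAt⟩
  have hq0 : Tendsto (fun x => E x / E 0) (𝓝 0) (𝓝 1) := by
    have := hE.continuousAt.tendsto.div_const (E 0)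
    rwa [div_self hE0] at this
  obtain ⟨R₁, hR₁, hq1⟩ := Metric.mem_nhds_iff.1 (hq0 (ball_mem_nhds (1 : ℂ) one_pos))
  set R := min R₀ R₁ with hRdef
  have hR : 0 < R := lt_min hR₀ hR₁
  have hslit : ∀ x ∈ ball (0 : ℂ) R, E x / E 0 ∈ slitPlane := fun x hx =>
    ball_one_subset_slitPlane (hq1 (ball_subset_ball (min_le_right _ _) hx))
  set e : ℂ → ℂ := fun x => (E x / E 0) ^ (((2 : ℕ) : ℂ)⁻¹) with he
  have hed : DifferentiableOn ℂ e (ball 0 R) := by
    intro x hx
    have h1 : DifferentiableAt ℂ E x :=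
      hEd.differentiableAt (isOpen_ball.mem_nhds (ball_subset_ball (min_le_left _ _) hx))
    exact ((h1.div_const (E 0)).cpow_const (hslit x hx)).differentiableWithinAt
  have he2 : ∀ x, e x ^ 2 = E x / E 0 := fun x => cpow_nat_inv_pow _ two_ne_zero
  have he0 : e 0 = 1 := by
    rw [he]
    simp [div_self hE0]
  have hball : ball (0 : ℂ) R ∈ 𝓝[≠] (0 : ℂ) := mem_nhdsWithin_of_mem_nhds (ball_mem_nhds _ hR)
  rcases eq_or_lt_of_le hd with hd2 | hd1
  · -- the double pole
    have hg : DifferentiableOn ℂ (dslope e 0) (ball 0 R) :=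
      (differentiableOn_dslope (ball_mem_nhds _ hR)).2 hed
    obtain ⟨P, P', hP⟩ := RTU_avg (dslope e 0) R hg 1 one_pos
    have hmul : ∀ x, x * dslope e 0 x = e x - 1 := by
      intro x
      have := sub_smul_dslope e 0 x
      rw [he0, sub_zero, smul_eq_mul] at this
      exact this
    -- the coordinate
    have hu : ∀ x ∈ ball (0 : ℂ) R, HasDerivAt (fun x => x * exp (x * P x))
        (exp (x * P x) * e x) x := by
      intro x hx
      obtain ⟨h1, h2⟩ := hP x hx
      have h3 : HasDerivAt (fun x => x * P x) (1 * P x + x * P' x) x := (hasDerivAt_id x).mul h1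
      have h4 : HasDerivAt (fun x => x * exp (x * P x))
          (1 * exp (x * P x) + x * (exp (x * P x) * (1 * P x + x * P' x))) x :=
        (hasDerivAt_id x).mul h3.cexp
      refine h4.congr_deriv ?_
      have h5 := hmul x
      rw [← h2] at h5
      push_cast at h5
      have h6 : e x = 1 + x * (P x + 1 * x * P' x) := by rw [h5]; ring
      rw [h6]
      ring
    refine ⟨fun x => x * exp (x * P x), ?_, by simp, ?_, ?_⟩
    · refine DifferentiableOn.analyticAt (s := ball 0 R) (fun x hx => ?_) (ball_mem_nhds _ hR)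
      exact (hu x hx).differentiableAt.differentiableWithinAt
    · rw [(hu 0 (mem_ball_self hR)).deriv, he0]
      simp
    · filter_upwards [hB, hball, self_mem_nhdsWithin] with x hx hxR hx0
      have hx0' : x ≠ 0 := hx0
      rw [(hu x hxR).deriv, hx, ← hd2, mul_zpow, mul_pow, he2]
      have h1 : exp (x * P x) ≠ 0 := exp_ne_zero _
      have h2 : (exp (x * P x)) ^ (-2 : ℤ) = (exp (x * P x) ^ 2)⁻¹ := by
        rw [zpow_neg]; rfl
      rw [h2]
      field_simp
  · -- no double pole
    obtain ⟨m, hm⟩ : ∃ m : ℕ, (m : ℤ) = d + 2 := ⟨(d + 2).toNat, Int.toNat_of_nonneg (by omega)⟩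
    have hm1 : 1 ≤ m := by omega
    have hmR : (0 : ℝ) < m := by exact_mod_cast hm1
    have hmC : (m : ℂ) ≠ 0 := by exact_mod_cast (by omega : m ≠ 0)
    obtain ⟨P, P', hP⟩ := RTU_avg e R hed (2 / m) (by positivity)
    have hP0 : P 0 = 1 := by
      have := (hP 0 (mem_ball_self hR)).2
      rw [mul_zero, zero_mul, add_zero, he0] at this
      exact this
    have hPc : ContinuousAt P 0 := (hP 0 (mem_ball_self hR)).1.continuousAt
    have hPt : Tendsto P (𝓝 0) (𝓝 1) := by
      have := hPc.tendsto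
      rwa [hP0] at this
    obtain ⟨R₂, hR₂, hP1⟩ := Metric.mem_nhds_iff.1 (hPt (ball_mem_nhds (1 : ℂ) one_pos))
    set R' := min R R₂ with hR'def
    have hR' : 0 < R' := lt_min hR hR₂
    have hPs : ∀ x ∈ ball (0 : ℂ) R', P x ∈ slitPlane := fun x hx =>
      ball_one_subset_slitPlane (hP1 (ball_subset_ball (min_le_right _ _) hx))
    set κ : ℂ → ℂ := fun x => P x ^ (2 / m : ℂ) with hκ
    have hκd : ∀ x ∈ ball (0 : ℂ) R', HasDerivAt κ (κ x * ((2 / m : ℂ) * P' x / P x)) x := by
      intro x hx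
      have hxR : x ∈ ball (0 : ℂ) R := ball_subset_ball (min_le_left _ _) hx
      have h1 := (hP x hxR).1.cpow_const (c := (2 / m : ℂ)) (hPs x hx)
      have hPne : P x ≠ 0 := slitPlane_ne_zero (hPs x hx)
      refine h1.congr_deriv ?_
      rw [cpow_sub _ _ hPne, cpow_one]
      simp only [hκ]
      field_simp
    have hu : ∀ x ∈ ball (0 : ℂ) R', HasDerivAt (fun x => x * κ x) (κ x * e x / P x) x := by
      intro x hx
      have hxR : x ∈ ball (0 : ℂ) R := ball_subset_ball (min_le_left _ _) hx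
      have hPne : P x ≠ 0 := slitPlane_ne_zero (hPs x hx)
      have h2 := (hP x hxR).2
      have h4 : HasDerivAt (fun x => x * κ x)
          (1 * κ x + x * (κ x * ((2 / m : ℂ) * P' x / P x))) x :=
        (hasDerivAt_id x).mul (hκd x hx)
      refine h4.congr_deriv ?_
      rw [← h2]
      push_cast
      field_simp
    have hκ0 : κ 0 = 1 := by
      rw [hκ]
      simp [hP0]
    have hκm : ∀ x, κ x ^ m = P x ^ 2 := by
      intro x
      rw [hκ]
      simp only
      rw [← cpow_nat_mul]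
      have : (m : ℂ) * (2 / m) = ((2 : ℕ) : ℂ) := by
        field_simp
        norm_num
      rw [this, cpow_natCast]
    refine ⟨fun x => x * κ x, ?_, by simp, ?_, ?_⟩
    · refine DifferentiableOn.analyticAt (s := ball 0 R') (fun x hx => ?_) (ball_mem_nhds _ hR')
      exact (hu x hx).differentiableAt.differentiableWithinAt
    · rw [(hu 0 (mem_ball_self hR')).deriv, he0, hP0, hκ0]
      simp
    · have hball' : ball (0 : ℂ) R' ∈ 𝓝[≠] (0 : ℂ) :=
        mem_nhdsWithin_of_mem_nhds (ball_mem_nhds _ hR')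
      filter_upwards [hB, hball', self_mem_nhdsWithin] with x hx hxR hx0
      have hx0' : x ≠ 0 := hx0
      have hPne : P x ≠ 0 := slitPlane_ne_zero (hPs x hxR)
      have hκne : κ x ≠ 0 := by
        intro h0
        have := hκm x
        rw [h0, zero_pow (by omega)] at this
        exact hPne (pow_eq_zero_iff two_ne_zero |>.1 this.symm)
      have hz : κ x ^ d * κ x ^ 2 = P x ^ 2 := by
        rw [← hκm x, ← zpow_natCast (κ x) m, hm, zpow_add₀ hκne]
        rfl
      rw [(hu x hxR).deriv, hx, mul_zpow]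
      calc (κ x * e x / P x) ^ 2 * (x ^ d * κ x ^ d) * E 0
          = (κ x ^ d * κ x ^ 2) * x ^ d * (e x ^ 2 * E 0) / P x ^ 2 := by ring
        _ = x ^ d * E x := by
            rw [hz, he2]
            field_simp

end XPT
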